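import Pool.Agent.Helper33.TB.Goals

/-!
# Project TB (MP_74f661_nt), packet CC: concentration in short blocks
-/

set_option autoImplicit false

open Finset Filter Topology

namespace Pool.Agent.Helper93.TB

open Pool.Agent.Helper33.TB
open Pool.Agent.Helper90.Twin (Ps Gz LL mem_Ps Ps_mono Gz_pos block_sum inv_Gz_le_pow
  exp_neg_two_mul_le LL_ge_one)

/-- an average is bounded by a pointwise bound -/
theorem av_le {Q : ℕ} {f : ℤ → ℝ} {δ : ℝ} (hδ : 0 ≤ δ) (h : ∀ t, f t ≤ δ) : Av Q f ≤ δ := by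
  unfold Av
  rcases Nat.eq_zero_or_pos Q with rfl | hQ
  · simpa using hδ
  · have hQ' : (0 : ℝ) < Q := by exact_mod_cast hQ
    rw [div_le_iff₀ hQ']
    calc ∑ t ∈ range Q, f (t : ℤ) ≤ ∑ t ∈ range Q, δ := sum_le_sum fun t _ => h _
      _ = δ * Q := by rw [sum_const, card_range, nsmul_eq_mul, mul_comm]

/-- averages are monotone -/
theorem av_mono {Q : ℕ} {f g : ℤ → ℝ} (h : ∀ t, f t ≤ g t) : Av Q f ≤ Av Q g := by
  unfold Av
  exact div_le_div_of_nonneg_right (sum_le_sum fun t _ => h _) (Nat.cast_nonneg Q)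

/-- the sum of the reciprocals of the primes between `w` and `w ^ (2 ^ n)` -/
theorem block_iter (w : ℕ) (hw : 2 ≤ w) (n : ℕ) :
    ∑ p ∈ Ps (w ^ (2 ^ n)) \ Ps w, 1 / (p : ℝ) ≤ 12 * n := by
  induction n with
  | zero => simp
  | succ n ih =>
    have e : w ^ 2 ^ (n + 1) = w ^ 2 ^ n * w ^ 2 ^ n := by rw [← pow_add, pow_succ, mul_two]
    have hs : Nat.sqrt (w ^ 2 ^ (n + 1)) = w ^ 2 ^ n := by rw [e, Nat.sqrt_eq]
    have h1 : w ≤ w ^ 2 ^ n := Nat.le_self_pow (by positivity) w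
    have h4 : 4 ≤ w ^ 2 ^ (n + 1) := by
      rw [e]
      exact le_trans (by norm_num : 4 ≤ 2 * 2) (Nat.mul_le_mul (hw.trans h1) (hw.trans h1))
    have hb := block_sum _ h4
    rw [hs] at hb
    have hsub : Ps (w ^ 2 ^ (n + 1)) \ Ps w ⊆
        (Ps (w ^ 2 ^ (n + 1)) \ Ps (w ^ 2 ^ n)) ∪ (Ps (w ^ 2 ^ n) \ Ps w) := by
      intro p hp
      rw [Finset.mem_sdiff] at hp
      rw [mem_union, Finset.mem_sdiff, Finset.mem_sdiff]
      by_cases h : p ∈ Ps (w ^ 2 ^ n)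
      · exact Or.inr ⟨h, hp.2⟩
      · exact Or.inl ⟨hp.1, h⟩
    have hdis : Disjoint (Ps (w ^ 2 ^ (n + 1)) \ Ps (w ^ 2 ^ n)) (Ps (w ^ 2 ^ n) \ Ps w) := by
      rw [disjoint_left]
      intro p h1 h2
      exact (Finset.mem_sdiff.1 h1).2 (Finset.mem_sdiff.1 h2).1
    calc ∑ p ∈ Ps (w ^ (2 ^ (n + 1))) \ Ps w, 1 / (p : ℝ)
        ≤ ∑ p ∈ (Ps (w ^ 2 ^ (n + 1)) \ Ps (w ^ 2 ^ n)) ∪ (Ps (w ^ 2 ^ n) \ Ps w),
            1 / (p : ℝ) := sum_le_sum_of_subset_of_nonneg hsub (fun _ _ _ => by positivity)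
      _ = ∑ p ∈ (Ps (w ^ 2 ^ (n + 1)) \ Ps (w ^ 2 ^ n)), 1 / (p : ℝ) +
            ∑ p ∈ (Ps (w ^ 2 ^ n) \ Ps w), 1 / (p : ℝ) := sum_union hdis
      _ ≤ 12 + 12 * n := add_le_add hb ih
      _ = 12 * ((n + 1 : ℕ) : ℝ) := by
        push_cast
        ring

/-- lower bound of the density -/
theorem gS_ge {P : Finset ℕ} (hP : ∀ p ∈ P, 5 ≤ p) :
    Real.exp (-(4 * ∑ p ∈ P, 1 / (p : ℝ))) ≤ gS P := by
  unfold gS
  rw [mul_sum, ← sum_neg_distrib, Real.exp_sum]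
  apply Finset.prod_le_prod
  · intro p _
    exact (Real.exp_pos _).le
  · intro p hp
    have h5 : (5 : ℝ) ≤ p := by exact_mod_cast hP p hp
    have h1 : 2 / (p : ℝ) ≤ 1 / 2 := by
      rw [div_le_iff₀ (by linarith)]
      linarith
    have h2 := exp_neg_two_mul_le (x := 2 / (p : ℝ)) (by positivity) h1
    have h3 : -(4 * (1 / (p : ℝ))) = -2 * (2 / (p : ℝ)) := by ring
    rw [h3]
    exact h2

/-- integer roots -/
theorem root_exists (K : ℕ) (hK : 1 ≤ K) (b : ℕ) : ∃ w : ℕ, w ^ K ≤ b ∧ b < (w + 1) ^ K := by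
  have hex : ∃ w : ℕ, b < (w + 1) ^ K := ⟨b, lt_of_lt_of_le (Nat.lt_succ_self b)
    (Nat.le_self_pow (by omega) (b + 1))⟩
  classical
  refine ⟨Nat.find hex, ?_, Nat.find_spec hex⟩
  rcases Nat.eq_zero_or_pos (Nat.find hex) with h | h
  · rw [h, zero_pow (by omega)]
    exact Nat.zero_le _
  · have h2 := Nat.find_min hex (m := Nat.find hex - 1) (by omega)
    rw [Nat.sub_add_cancel h] at h2
    exact not_lt.1 h2

open Classical in
/-- restriction of a sum to an indicator -/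
theorem filt_sum {X : ℤ → ℝ} (hX : ∀ t, X t = 0 ∨ X t = 1) (b : ℕ) (a : ℤ) (f : ℕ → ℝ) :
    ∑ i ∈ range b, X (a + (i : ℤ)) * f i =
      ∑ i ∈ (range b).filter (fun i : ℕ => X (a + (i : ℤ)) = 1), f i := by
  rw [sum_filter]
  refine sum_congr rfl fun i _ => ?_
  rcases hX (a + (i : ℤ)) with h | h
  · rw [h, zero_mul, if_neg zero_ne_one]
  · rw [h, one_mul, if_pos rfl]

/-- arithmetic of the deviations -/
theorem dev_arith {ε g G B N u γ : ℝ} (hε : 0 < ε) (hε1 : ε ≤ 1) (hg : γ ≤ g) (hγ : 0 < γ)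
    (hGB : 0 ≤ G * B) (hu : |u - G * B| ≤ ε / 4 * (G * B))
    (hN : ε * (G * g * B) < |N - G * g * B|) : ε * γ / 2 * u < |N - g * u| := by
  have hg0 : 0 < g := lt_of_lt_of_le hγ hg
  have h1 : |N - G * g * B| ≤ |N - g * u| + g * |u - G * B| := by
    have e : N - G * g * B = (N - g * u) + g * (u - G * B) := by ring
    rw [e]
    refine (abs_add_le _ _).trans ?_
    rw [abs_mul, abs_of_pos hg0]
  have h2 : g * |u - G * B| ≤ g * (ε / 4 * (G * B)) := mul_le_mul_of_nonneg_left hu hg0.le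
  have h3 := abs_le.1 hu
  have h4 : ε / 4 * (G * B) ≤ 1 / 4 * (G * B) := mul_le_mul_of_nonneg_right (by linarith) hGB
  have h5 : u ≤ 5 / 4 * (G * B) := by linarith [h3.2]
  have hu0 : 0 ≤ u := by linarith [h3.1]
  have h6 : ε * γ / 2 * u ≤ ε * g / 2 * u := by
    apply mul_le_mul_of_nonneg_right _ hu0
    have := mul_le_mul_of_nonneg_left hg hε.le
    linarith
  have h7 : ε * g / 2 * u ≤ ε * g / 2 * (5 / 4 * (G * B)) :=
    mul_le_mul_of_nonneg_left h5 (by positivity)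
  have h8 : 0 ≤ ε * g * (G * B) := by positivity
  have e1 : ε * (G * g * B) = ε * g * (G * B) := by ring
  have e2 : g * (ε / 4 * (G * B)) = 1 / 4 * (ε * g * (G * B)) := by ring
  have e3 : ε * g / 2 * (5 / 4 * (G * B)) = 5 / 8 * (ε * g * (G * B)) := by ring
  rw [e1] at hN
  rw [e2] at h2
  rw [e3] at h7
  linarith

/-- arithmetic of the exponents -/
theorem exp_arith {ε γ C S G w b u : ℝ} (hε : 0 < ε) (hε1 : ε ≤ 1) (hγ : 0 < γ) (hG : 0 ≤ G)
    (hw : 0 < w) (hwb : w ≤ b) (hS0 : 0 ≤ S) (hS : S ≤ C)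
    (hu : |u - G * b| ≤ ε / 4 * (G * b)) :
    (ε * γ) ^ 2 / (1024 * (1 + C)) * (w * G) ≤
      (ε * γ / 2) ^ 2 * u / (32 * (2 * (b / w + 1)) * (1 + S)) := by
  have hb : 0 < b := lt_of_lt_of_le hw hwb
  have hGb : 0 ≤ G * b := by positivity
  have h3 := abs_le.1 hu
  have h4 : ε / 4 * (G * b) ≤ 1 / 4 * (G * b) := mul_le_mul_of_nonneg_right (by linarith) hGb
  have hu1 : 1 / 2 * (G * b) ≤ u := by linarith [h3.1]
  have h5 : 1 ≤ b / w := by
    rw [le_div_iff₀ hw]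
    linarith
  have h6 : 32 * (2 * (b / w + 1)) * (1 + S) ≤ 32 * (4 * (b / w)) * (1 + C) := by
    apply mul_le_mul _ (by linarith) (by linarith) (by positivity)
    linarith
  have h7 : 0 < 32 * (2 * (b / w + 1)) * (1 + S) := by positivity
  have h8 : 0 < 32 * (4 * (b / w)) * (1 + C) := lt_of_lt_of_le h7 h6
  have hC : 0 < 1 + C := by linarith
  calc (ε * γ) ^ 2 / (1024 * (1 + C)) * (w * G)
      = (ε * γ / 2) ^ 2 * (1 / 2 * (G * b)) / (32 * (4 * (b / w)) * (1 + C)) := by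
        field_simp
        ring
    _ ≤ (ε * γ / 2) ^ 2 * u / (32 * (4 * (b / w)) * (1 + C)) := by
        apply div_le_div_of_nonneg_right _ h8.le
        exact mul_le_mul_of_nonneg_left hu1 (by positivity)
    _ ≤ _ := by
        apply div_le_div_of_nonneg_left _ h7 h6
        have : 0 ≤ u := by linarith
        positivity

open Classical in
/-- the concentration for one triple of parameters -/
theorem cc_core (hper : StmtPER) (hx : StmtXSB) (hch : StmtCH) {ε γ C : ℝ} (hε : 0 < ε)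
    (hε1 : ε ≤ 1) (hγ : 0 < γ) (hγ1 : γ ≤ 1) {w b L : ℕ} (hw : 1 ≤ w) (hwb : w ≤ b) (hbL : b ≤ L)
    (hfl : ∀ t : ℤ, |Nb (XS (Ps w)) b t - Gz w * b| ≤ ε / 4 * (Gz w * b))
    (hS : ∑ p ∈ Ps L \ Ps w, 1 / (p : ℝ) ≤ C) (hg : γ ≤ gS (Ps L \ Ps w)) :
    Conc (QS (Ps L)) (XS (Ps L)) b ε
      (2 * Real.exp (-((ε * γ) ^ 2 / (1024 * (1 + C)) * (w * Gz w)))) := by
  have hwL : w ≤ L := hwb.trans hbL
  set P := Ps L \ Ps w with hP
  have hPL : Ps w ∪ P = Ps L := union_sdiff_of_subset (Ps_mono hwL)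
  have hdis : Disjoint (Ps w) P := disjoint_sdiff
  have hPp : ∀ p ∈ P, p.Prime ∧ 5 ≤ p ∧ w < p := by
    intro p hp
    rw [hP, Finset.mem_sdiff, mem_Ps, mem_Ps] at hp
    refine ⟨hp.1.2.2, hp.1.1, ?_⟩
    by_contra h
    exact hp.2 ⟨hp.1.1, not_lt.1 h, hp.1.2.2⟩
  obtain ⟨hcop, hQ, hQ1⟩ := hx.cop (Ps w) P (fun p hp => (mem_Ps.1 hp).2.2)
    (fun p hp => (hPp p hp).1) hdis
  have hQ2 := (hx.cop P (Ps w) (fun p hp => (hPp p hp).1) (fun p hp => (mem_Ps.1 hp).2.2)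
    hdis.symm).2.2
  rw [hPL] at hQ
  have hden : Av (QS (Ps L)) (XS (Ps L)) = Gz L := by
    rw [hx.mean _ (fun p hp => ⟨(mem_Ps.1 hp).2.2, (mem_Ps.1 hp).1⟩), hx.dens]
  have hG : Gz L = Gz w * gS P := by
    rw [← hx.dens L, ← hx.dens w, ← hPL]
    unfold gS
    rw [prod_union hdis]
  have hGw := Gz_pos w
  let F : ℤ → ℤ → ℝ := fun a t =>
    if ε * (Gz L * b) < |(∑ i ∈ range b, XS (Ps w) (a + (i : ℤ)) * XS P (t + (i : ℤ))) - Gz L * b|
    then 1 else 0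
  have e1 : (fun t => if ε * (Gz L * b) < |Nb (XS (Ps L)) b t - Gz L * b| then (1 : ℝ) else 0) =
      fun t => F t t := by
    funext t
    have h1 : Nb (XS (Ps L)) b t =
        ∑ i ∈ range b, XS (Ps w) (t + (i : ℤ)) * XS P (t + (i : ℤ)) := by
      unfold Nb
      refine sum_congr rfl fun i _ => ?_
      rw [← hPL, hx.mul _ _ hdis]
    rw [h1]
  unfold Conc
  rw [hden, e1, hQ, hper.crt _ _ hQ1 hQ2 hcop F ?_ ?_]
  · apply av_le (by positivity)
    intro a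
    set U := (range b).filter (fun i : ℕ => XS (Ps w) (a + (i : ℤ)) = 1) with hU
    have hsum : ∀ t : ℤ, ∑ i ∈ range b, XS (Ps w) (a + (i : ℤ)) * XS P (t + (i : ℤ)) =
        ∑ i ∈ U, XS P (t + (i : ℤ)) := fun t => filt_sum (hx.zo (Ps w)) b a _
    have hcard : Nb (XS (Ps w)) b a = U.card := by
      have h := filt_sum (hx.zo (Ps w)) b a (fun _ => 1)
      simp only [mul_one, sum_const, nsmul_eq_mul] at h
      exact h
    have hfa := hfl a
    rw [hcard] at hfa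
    have h1 : Av (QS P) (fun t => F a t) ≤ Av (QS P) (fun t =>
        if ε * γ / 2 * U.card < |(∑ i ∈ U, XS P (t + (i : ℤ))) - gS P * U.card| then 1 else 0) := by
      apply av_mono
      intro t
      by_cases hc : ε * (Gz L * b) <
          |(∑ i ∈ range b, XS (Ps w) (a + (i : ℤ)) * XS P (t + (i : ℤ))) - Gz L * b|
      · have h2 : ε * γ / 2 * U.card < |(∑ i ∈ U, XS P (t + (i : ℤ))) - gS P * U.card| := by
          rw [hsum, hG] at hc
          exact dev_arith hε hε1 hg hγ (by positivity) hfa hc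
        rw [if_pos h2]
        change (if _ then (1 : ℝ) else 0) ≤ 1
        rw [if_pos hc]
      · change (if _ then (1 : ℝ) else 0) ≤ _
        rw [if_neg hc]
        split_ifs
        · exact zero_le_one
        · exact le_rfl
    have hεγ : ε * γ / 2 ≤ 1 := by
      have := mul_le_mul hε1 hγ1 hγ.le zero_le_one
      linarith
    refine h1.trans ((hch P b w hw hPp U (filter_subset _ _) (ε * γ / 2) (by positivity)
      hεγ).trans ?_)
    apply mul_le_mul_of_nonneg_left _ (by norm_num)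
    apply Real.exp_le_exp.2
    apply neg_le_neg
    exact exp_arith hε hε1 hγ hGw.le (by exact_mod_cast hw) (by exact_mod_cast hwb)
      (sum_nonneg fun _ _ => by positivity) hS hfa
  · intro a t
    have h : ∑ i ∈ range b, XS (Ps w) (a + (QS (Ps w) : ℤ) + (i : ℤ)) * XS P (t + (i : ℤ)) =
        ∑ i ∈ range b, XS (Ps w) (a + (i : ℤ)) * XS P (t + (i : ℤ)) := by
      refine sum_congr rfl fun i _ => ?_
      rw [add_right_comm, hx.per (Ps w)]
    simp only [F, h]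
  · intro a t
    have h : ∑ i ∈ range b, XS (Ps w) (a + (i : ℤ)) * XS P (t + (QS P : ℤ) + (i : ℤ)) =
        ∑ i ∈ range b, XS (Ps w) (a + (i : ℤ)) * XS P (t + (i : ℤ)) := by
      refine sum_congr rfl fun i _ => ?_
      rw [add_right_comm t, hx.per P]
    simp only [F, h]

/-- lower bound of `w * Gz w` -/
theorem wG_ge : ∃ κ : ℝ, 0 < κ ∧ ∀ w : ℕ, 2 ≤ w → κ * (w : ℝ) ^ (3 / 4 : ℝ) ≤ w * Gz w := by
  refine ⟨(Real.exp 14 * 224 ^ 14)⁻¹, by positivity, fun w hw => ?_⟩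
  have hw0 : (0 : ℝ) < w := by
    have : 0 < w := by omega
    exact_mod_cast this
  have hw2 : (2 : ℝ) ≤ w := by exact_mod_cast hw
  have hlog2 : (1 / 2 : ℝ) ≤ Real.log 2 := by
    have := Real.log_two_gt_d9
    linarith
  have hlogw : Real.log 2 ≤ Real.log w := Real.log_le_log (by norm_num) hw2
  have h1 : (Nat.log 2 w : ℝ) ≤ 2 * Real.log w := by
    have h2 : (2 : ℝ) ^ (Nat.log 2 w) ≤ w := by
      exact_mod_cast Nat.pow_log_le_self 2 (by omega)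
    have h3 := Real.log_le_log (by positivity) h2
    rw [Real.log_pow] at h3
    have h4 : (Nat.log 2 w : ℝ) * (1 / 2) ≤ (Nat.log 2 w : ℝ) * Real.log 2 :=
      mul_le_mul_of_nonneg_left hlog2 (Nat.cast_nonneg _)
    linarith
  have h5 : LL w ≤ 4 * Real.log w := by
    unfold LL
    linarith
  have h6 : Real.log w ≤ (w : ℝ) ^ (1 / 56 : ℝ) / (1 / 56) :=
    Real.log_le_rpow_div hw0.le (by norm_num)
  have h7 : LL w ≤ 224 * (w : ℝ) ^ (1 / 56 : ℝ) := by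
    have : (w : ℝ) ^ (1 / 56 : ℝ) / (1 / 56) = 56 * (w : ℝ) ^ (1 / 56 : ℝ) := by ring
    linarith
  have h8 : LL w ^ 14 ≤ 224 ^ 14 * (w : ℝ) ^ (1 / 4 : ℝ) := by
    have h9 := pow_le_pow_left₀ (by linarith [LL_ge_one w]) h7 14
    rw [mul_pow] at h9
    have e : ((w : ℝ) ^ (1 / 56 : ℝ)) ^ 14 = (w : ℝ) ^ (1 / 4 : ℝ) := by
      rw [← Real.rpow_natCast, ← Real.rpow_mul hw0.le]
      norm_num
    rw [e] at h9
    exact h9
  have h10 := inv_Gz_le_pow w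
  have hG := Gz_pos w
  have h11 : (Gz w)⁻¹ ≤ Real.exp 14 * 224 ^ 14 * (w : ℝ) ^ (1 / 4 : ℝ) := by
    refine h10.trans ?_
    rw [mul_assoc]
    exact mul_le_mul_of_nonneg_left h8 (Real.exp_pos _).le
  have h12 : (Real.exp 14 * 224 ^ 14 * (w : ℝ) ^ (1 / 4 : ℝ))⁻¹ ≤ Gz w := by
    rw [inv_le_comm₀ (by positivity) hG]
    exact h11
  have e2 : (w : ℝ) ^ (3 / 4 : ℝ) = w * ((w : ℝ) ^ (1 / 4 : ℝ))⁻¹ := by
    rw [← Real.rpow_neg hw0.le]
    nth_rewrite 2 [← Real.rpow_one (w : ℝ)]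
    rw [← Real.rpow_add hw0]
    norm_num
  calc (Real.exp 14 * 224 ^ 14)⁻¹ * (w : ℝ) ^ (3 / 4 : ℝ)
      = w * (Real.exp 14 * 224 ^ 14 * (w : ℝ) ^ (1 / 4 : ℝ))⁻¹ := by
        rw [e2, mul_inv]
        ring
    _ ≤ w * Gz w := mul_le_mul_of_nonneg_left h12 hw0.le

/-- the final comparison of exponentials -/
theorem fin_arith {c κ : ℝ} (hc : 0 < c) (hκ : 0 < κ) {K : ℕ} (hK : 1 ≤ K) {w b : ℕ} (hw : 2 ≤ w)
    (hb : b ≤ (2 * w) ^ K) (hwG : κ * (w : ℝ) ^ (3 / 4 : ℝ) ≤ w * Gz w)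
    (hbig : 3 / (c * κ) ≤ (w : ℝ) ^ (1 / 4 : ℝ)) :
    2 * Real.exp (-(c * (w * Gz w))) ≤ Real.exp (-((b : ℝ) ^ (1 / (2 * K) : ℝ))) := by
  have hw2 : (2 : ℝ) ≤ w := by exact_mod_cast hw
  have hw0 : (0 : ℝ) < w := by linarith
  have hK0 : (0 : ℝ) < K := by exact_mod_cast hK
  have h1 : (b : ℝ) ^ (1 / (2 * K) : ℝ) ≤ (2 * (w : ℝ)) ^ (1 / 2 : ℝ) := by
    have h2 : (b : ℝ) ≤ (2 * (w : ℝ)) ^ (K : ℝ) := by
      rw [Real.rpow_natCast]
      exact_mod_cast hb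
    calc (b : ℝ) ^ (1 / (2 * K) : ℝ) ≤ ((2 * (w : ℝ)) ^ (K : ℝ)) ^ (1 / (2 * K) : ℝ) :=
          Real.rpow_le_rpow (Nat.cast_nonneg _) h2 (by positivity)
      _ = (2 * (w : ℝ)) ^ (1 / 2 : ℝ) := by
          rw [← Real.rpow_mul (by positivity)]
          congr 1
          field_simp
  have h3 : (2 * (w : ℝ)) ^ (1 / 2 : ℝ) ≤ 2 * (w : ℝ) ^ (1 / 2 : ℝ) := by
    rw [Real.mul_rpow (by norm_num) hw0.le]
    apply mul_le_mul_of_nonneg_right _ (by positivity)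
    calc (2 : ℝ) ^ (1 / 2 : ℝ) ≤ (2 : ℝ) ^ (1 : ℝ) :=
          Real.rpow_le_rpow_of_exponent_le (by norm_num) (by norm_num)
      _ = 2 := Real.rpow_one 2
  have h4 : (1 : ℝ) ≤ (w : ℝ) ^ (1 / 2 : ℝ) := Real.one_le_rpow (by linarith) (by norm_num)
  have h5 : 3 * (w : ℝ) ^ (1 / 2 : ℝ) ≤ c * (w * Gz w) := by
    have e : (w : ℝ) ^ (3 / 4 : ℝ) = (w : ℝ) ^ (1 / 4 : ℝ) * (w : ℝ) ^ (1 / 2 : ℝ) := by
      rw [← Real.rpow_add hw0]
      norm_num
    have h6 : 3 ≤ c * κ * (w : ℝ) ^ (1 / 4 : ℝ) := by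
      rw [div_le_iff₀ (by positivity)] at hbig
      linarith
    calc 3 * (w : ℝ) ^ (1 / 2 : ℝ) ≤ c * κ * (w : ℝ) ^ (1 / 4 : ℝ) * (w : ℝ) ^ (1 / 2 : ℝ) :=
          mul_le_mul_of_nonneg_right h6 (by positivity)
      _ = c * (κ * (w : ℝ) ^ (3 / 4 : ℝ)) := by
          rw [e]
          ring
      _ ≤ c * (w * Gz w) := mul_le_mul_of_nonneg_left hwG hc.le
  have h7 : (2 : ℝ) ≤ Real.exp 1 := by
    have := Real.add_one_le_exp (1 : ℝ)
    linarith
  calc 2 * Real.exp (-(c * (w * Gz w))) ≤ Real.exp 1 * Real.exp (-(c * (w * Gz w))) :=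
        mul_le_mul_of_nonneg_right h7 (Real.exp_pos _).le
    _ = Real.exp (1 + -(c * (w * Gz w))) := (Real.exp_add _ _).symm
    _ ≤ _ := by
        apply Real.exp_le_exp.2
        linarith

/-- CC -/
theorem cc (hper : StmtPER) (hx : StmtXSB) (hfl : StmtFL) (hch : StmtCH) : StmtCC := by
  intro A ε₀ hε₀
  set ε := min ε₀ 1 with hεdef
  have hε : 0 < ε := lt_min hε₀ one_pos
  have hε1 : ε ≤ 1 := min_le_right _ _
  obtain ⟨K₀, hK₀⟩ := hfl (ε / 4) (by positivity)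
  obtain ⟨W₀, hW₀⟩ := eventually_atTop.1 hK₀
  obtain ⟨κ, hκ, hwG⟩ := wG_ge
  set K := K₀ + 1 with hKdef
  set n := 2 * K * A with hn
  set C : ℝ := 12 * n with hC
  have hC0 : 0 ≤ C := by positivity
  set γ := Real.exp (-(4 * C)) with hγdef
  have hγ : 0 < γ := Real.exp_pos _
  have hγ1 : γ ≤ 1 := by
    rw [hγdef, ← Real.exp_zero]
    apply Real.exp_le_exp.2
    linarith
  set c := (ε * γ) ^ 2 / (1024 * (1 + C)) with hcdef
  have hc : 0 < c := by positivity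
  have hev : ∀ᶠ w : ℕ in atTop, 3 / (c * κ) ≤ (w : ℝ) ^ (1 / 4 : ℝ) :=
    ((tendsto_rpow_atTop (by norm_num : (0 : ℝ) < 1 / 4)).comp
      tendsto_natCast_atTop_atTop).eventually_ge_atTop _
  obtain ⟨W₁, hW₁⟩ := eventually_atTop.1 hev
  refine ⟨1 / (2 * K), by positivity, (W₀ + W₁ + 2) ^ K, fun b L hb hbL hLb => ?_⟩
  obtain ⟨w, hw1, hw2⟩ := root_exists K (by omega) b
  have hwW : W₀ + W₁ + 2 ≤ w := by
    have h1 : (W₀ + W₁ + 2) ^ K < (w + 1) ^ K := lt_of_le_of_lt hb hw2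
    have h2 := lt_of_pow_lt_pow_left₀ K (Nat.zero_le _) h1
    omega
  have hw2' : 2 ≤ w := by omega
  have hwb : w ≤ b := (Nat.le_self_pow (by omega) w).trans hw1
  have hb2 : b ≤ (2 * w) ^ K := hw2.le.trans (Nat.pow_le_pow_left (by omega) K)
  have hLw : L ≤ w ^ (2 ^ n) := by
    calc L ≤ b ^ A := hLb
      _ ≤ ((2 * w) ^ K) ^ A := Nat.pow_le_pow_left hb2 A
      _ ≤ ((w * w) ^ K) ^ A := Nat.pow_le_pow_left (Nat.pow_le_pow_left
          (Nat.mul_le_mul_right w hw2') K) A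
      _ = w ^ n := by
          rw [← pow_two, ← pow_mul, ← pow_mul, hn, mul_assoc]
      _ ≤ w ^ (2 ^ n) := Nat.pow_le_pow_right (by omega) Nat.lt_two_pow_self.le
  have hS : ∑ p ∈ Ps L \ Ps w, 1 / (p : ℝ) ≤ C := by
    refine le_trans ?_ (block_iter w hw2' n)
    apply sum_le_sum_of_subset_of_nonneg
    · exact sdiff_subset_sdiff (Ps_mono hLw) (Subset.refl _)
    · intro _ _ _
      positivity
  have hg : γ ≤ gS (Ps L \ Ps w) := by
    refine le_trans ?_ (gS_ge (P := Ps L \ Ps w) fun p hp => (mem_Ps.1 (Finset.mem_sdiff.1 hp).1).1)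
    rw [hγdef]
    apply Real.exp_le_exp.2
    linarith
  have hfl' : ∀ t : ℤ, |Nb (XS (Ps w)) b t - Gz w * b| ≤ ε / 4 * (Gz w * b) := by
    intro t
    refine hW₀ w (by omega) b ?_ t
    refine le_trans ?_ hw1
    exact Nat.pow_le_pow_right (by omega) (by omega)
  have hcore := cc_core hper hx hch hε hε1 hγ hγ1 (w := w) (b := b) (L := L) (by omega) hwb hbL
    hfl' hS hg
  have hfin := fin_arith hc hκ (K := K) (by omega) hw2' hb2 (hwG w hw2') (hW₁ w (by omega))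
  have hAv : 0 ≤ Av (QS (Ps L)) (XS (Ps L)) * b := by
    have : 0 ≤ Av (QS (Ps L)) (XS (Ps L)) := by
      unfold Av
      refine div_nonneg (Finset.sum_nonneg fun t _ => ?_) (Nat.cast_nonneg _)
      rcases hx.zo (Ps L) (t : ℤ) with h | h
      · exact h.ge
      · rw [h]
        exact zero_le_one
    positivity
  unfold Conc at hcore ⊢
  refine le_trans (av_mono fun t => ?_) (hcore.trans hfin)
  have hle : ε * (Av (QS (Ps L)) (XS (Ps L)) * b) ≤ ε₀ * (Av (QS (Ps L)) (XS (Ps L)) * b) :=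
    mul_le_mul_of_nonneg_right (min_le_left _ _) hAv
  by_cases h : ε₀ * (Av (QS (Ps L)) (XS (Ps L)) * b) <
      |Nb (XS (Ps L)) b t - Av (QS (Ps L)) (XS (Ps L)) * b|
  · rw [if_pos h, if_pos (lt_of_le_of_lt hle h)]
  · rw [if_neg h]
    split_ifs
    · exact zero_le_one
    · exact le_rfl

end Pool.Agent.Helper93.TB
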